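import Pool.Agent.P.MP_8c9ada_nt.Nec
import Pool.Agent.P.MP_8c9ada_nt.Suf

/-! Classification of the zeta-like pairs of every weight over a prime field of odd order. -/

namespace Pool.Agent.Results.MP_8c9ada_nt.PrimeClassOdd

open ZetaLikeMZV

/-- For a field with an odd prime number `q` of elements and `q ^ n < s₁ + s₂ ≤ q ^ (n + 1)`, the
pair `(s₁, s₂)` is zeta-like exactly when `s₁ ≤ q ^ n`, the base `q` digit sum of `q ^ n - s₁` is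
less than `q`, and `M = q ^ (n + 1) - s₂` has digit sum `1`, or digit sum `q` and
`s₁ ≤ M % q ^ n`. -/
theorem result : ∀ (F : Type) [Field F] [Fintype F] [DecidableEq (RatFunc F)] (q n s₁ s₂ : ℕ),
    Fintype.card F = q → q.Prime → q ≠ 2 → 1 ≤ s₁ → 1 ≤ s₂ → q ^ n < s₁ + s₂ →
      s₁ + s₂ ≤ q ^ (n + 1) →
      (ZetaLike F s₁ s₂ ↔ s₁ ≤ q ^ n ∧ (Nat.digits q (q ^ n - s₁)).sum < q ∧
        ((Nat.digits q (q ^ (n + 1) - s₂)).sum = 1 ∨
          ((Nat.digits q (q ^ (n + 1) - s₂)).sum = q ∧ s₁ ≤ (q ^ (n + 1) - s₂) % q ^ n))) := by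
  rintro F _ _ _ q n s₁ s₂ rfl hq _ h1 h2 w1 w2
  have : Fact (qq F).Prime := ⟨hq⟩
  have : CharP (RatFunc F) (qq F) := (CharP.charP_iff_prime_eq_zero hq).2 (cast_qq F)
  exact ⟨Pool.Agent.P.MP_8c9ada_nt.Cl.nec h1 h2 w1 w2,
    fun h => Pool.Agent.P.MP_8c9ada_nt.Cl.suff h1 h2 w2 h.1 h.2.1 h.2.2⟩

end Pool.Agent.Results.MP_8c9ada_nt.PrimeClassOdd
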